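import Pool.Agent.H58.PPCFail

set_option autoImplicit false

namespace Pool.Agent.Results.MP_1f5025_nt.Q2No

open MeasureTheory Filter Topology
open scoped Classical

/-- Poissonian pair correlations of a real sequence, with the distance to the nearest integer
written as `|t - round t|`. -/
def PPC (x : ℕ → ℝ) : Prop :=
  ∀ s : ℝ, 0 < s → Tendsto (fun N : ℕ =>
    (((Finset.range N ×ˢ Finset.range N).filter (fun p : ℕ × ℕ => p.1 ≠ p.2 ∧
      |(x p.1 - x p.2) - round (x p.1 - x p.2)| < s / N)).card : ℝ) / N) atTop (𝓝 (2 * s))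

/-- Additive energy of the first `N` terms. -/
def energy (a : ℕ → ℕ) (N : ℕ) : ℕ :=
  ((Finset.range N ×ˢ Finset.range N ×ˢ Finset.range N ×ˢ Finset.range N).filter
    (fun u : ℕ × ℕ × ℕ × ℕ => a u.1 + a u.2.1 = a u.2.2.1 + a u.2.2.2)).card

theorem result :
    ∀ ψ : ℕ → ℝ, Tendsto ψ atTop atTop →
      ∃ a : ℕ → ℕ, StrictMono a ∧ (∀ n, 0 < a n) ∧
        (∃ c : ℝ, 0 < c ∧ ∃ᶠ N : ℕ in atTop, c * ((N : ℝ) ^ 3 / ψ N) ≤ energy a N) ∧
        ∃ α : ℝ, PPC (fun n => Int.fract ((a n : ℝ) * α)) := by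
  intro ψ hψ
  obtain ⟨a, h1, h2, h3, h4⟩ := Pool.Agent.H58.PPC.exists_energy ψ hψ
  refine ⟨a, h1, h2, ⟨1 / 64, by norm_num, h3⟩, √2, ?_⟩
  unfold Pool.Agent.H58.PPC.IsPPC at h4
  unfold PPC
  simpa only [Pool.Agent.H58.PPC.prs_eq (fun n => (a n : ℝ) * √2)] using h4

end Pool.Agent.Results.MP_1f5025_nt.Q2No
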